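import Mathlib

/-! Not every quadruple is the pair (asymptotic v-number, asymptotic regularity) of a monomial
ideal. -/

namespace Pool.Agent.Results.MP_d985a5_al.NotAll

open MvPolynomial

variable {K : Type} [Field K] {n : ℕ}

/-- `p` is zero or a form of degree `e`. -/
def IsForm (e : ℤ) (p : MvPolynomial (Fin n) K) : Prop :=
  ∀ m ∈ p.support, (m.degree : ℤ) = e

/-- `I` is generated by monomials. -/
def IsMonomial (I : Ideal (MvPolynomial (Fin n) K)) : Prop :=
  ∃ G : Set (Fin n →₀ ℕ), I = Ideal.span ((fun s => monomial s (1 : K)) '' G)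

/-- `I` has a graded resolution by finite free modules whose `i`-th term is generated in degrees
at most `r + i`. -/
def RegLE (I : Ideal (MvPolynomial (Fin n) K)) (r : ℤ) : Prop :=
  ∃ (b : ℕ → ℕ) (deg : ∀ i, Fin (b i) → ℤ) (g : Fin (b 0) → MvPolynomial (Fin n) K)
    (d : ∀ i, Matrix (Fin (b i)) (Fin (b (i + 1))) (MvPolynomial (Fin n) K)),
    (∀ k, IsForm (deg 0 k) (g k)) ∧ (∀ i s t, IsForm (deg (i + 1) t - deg i s) (d i s t)) ∧
    Ideal.span (Set.range g) = I ∧
    Function.Exact (d 0).mulVec (fun v => ∑ k, v k * g k) ∧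
    (∀ i, Function.Exact (d (i + 1)).mulVec (d i).mulVec) ∧ ∀ i k, deg i k ≤ r + i

/-- The Castelnuovo-Mumford regularity of `I` is `r`. -/
def IsReg (I : Ideal (MvPolynomial (Fin n) K)) (r : ℤ) : Prop := IsLeast {r | RegLE I r} r

/-- The v-number of `I` is `v`. -/
def IsV (I : Ideal (MvPolynomial (Fin n) K)) (v : ℤ) : Prop :=
  IsLeast {e | ∃ f, IsForm e f ∧ (I.colon {f}).IsPrime} v

/-- the monomial ideal on a set of exponents -/
noncomputable def M (s : Set (Fin n →₀ ℕ)) : Ideal (MvPolynomial (Fin n) K) :=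
  Ideal.span ((fun s => monomial s (1 : K)) '' s)

lemma mem_M {s : Set (Fin n →₀ ℕ)} (hs : ∀ a ∈ s, ∀ c, a + c ∈ s) {f : MvPolynomial (Fin n) K} :
    f ∈ M s ↔ ∀ m ∈ f.support, m ∈ s := by
  rw [M, mem_ideal_span_monomial_image]
  refine forall₂_congr fun m _ => ⟨?_, fun h => ⟨m, h, le_rfl⟩⟩
  rintro ⟨a, ha, h⟩
  obtain ⟨c, rfl⟩ := le_iff_exists_add.1 h
  exact hs a ha c

lemma M_pow (T : ℕ → Set (Fin n →₀ ℕ)) (h0 : 0 ∈ T 0)
    (h : ∀ k, ∀ a ∈ T k, ∀ c ∈ T 1, a + c ∈ T (k + 1)) (k : ℕ) :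
    (M (T 1) : Ideal (MvPolynomial (Fin n) K)) ^ k ≤ M (T k) := by
  induction k with
  | zero =>
    rw [pow_zero, Ideal.one_eq_top, top_le_iff, Ideal.eq_top_iff_one]
    exact Ideal.subset_span ⟨0, h0, rfl⟩
  | succ k ih =>
    rw [pow_succ]
    refine (Ideal.mul_mono_left ih).trans ?_
    rw [M, M, Ideal.span_mul_span']
    refine Ideal.span_mono ?_
    rintro _ ⟨_, ⟨a, ha, rfl⟩, _, ⟨c, hc, rfl⟩, rfl⟩
    exact ⟨a + c, h k a ha c hc, by simp [monomial_mul]⟩

lemma prime_X (A : Set (Fin n)) :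
    (Ideal.span (X '' A : Set (MvPolynomial (Fin n) K))).IsPrime := by
  classical
  let φ : MvPolynomial (Fin n) K →ₐ[K] MvPolynomial (Fin n) K :=
    aeval fun j => if j ∈ A then 0 else X j
  have h1 : ∀ f, f - φ f ∈ Ideal.span (X '' A : Set (MvPolynomial (Fin n) K)) := by
    intro f
    induction f using MvPolynomial.induction_on with
    | C a => simp [φ]
    | add p q hp hq =>
      rw [map_add, add_sub_add_comm]; exact Ideal.add_mem _ hp hq
    | mul_X p j hp =>
      by_cases hj : j ∈ A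
      · have : φ (p * X j) = 0 := by simp [φ, hj]
        rw [this, sub_zero]
        exact Ideal.mul_mem_left _ _ (Ideal.subset_span ⟨j, hj, rfl⟩)
      · have : φ (p * X j) = φ p * X j := by simp [φ, hj]
        rw [this, ← sub_mul]
        exact Ideal.mul_mem_right _ _ hp
  have : Ideal.span (X '' A : Set (MvPolynomial (Fin n) K)) = RingHom.ker φ := by
    apply le_antisymm
    · rw [Ideal.span_le]
      rintro _ ⟨j, hj, rfl⟩
      simp [φ, hj]
    · intro f hf
      have := h1 f
      rwa [RingHom.mem_ker.1 hf, sub_zero] at this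
  rw [this]
  exact RingHom.ker_isPrime _

theorem result (K : Type) [Field K] (b d : ℤ) (hb : 0 ≤ b) :
    ¬ ∃ (n : ℕ) (I : Ideal (MvPolynomial (Fin n) K)), IsMonomial I ∧ I ≠ ⊤ ∧
      ∃ k₀ : ℕ, ∀ k ≥ k₀, IsV (I ^ k) (k + b) ∧ IsReg (I ^ k) (k + d) := by
  classical
  rintro ⟨n, I, ⟨G, hG⟩, hI, k₀, h⟩
  set A : Finset (Fin n) := Finset.univ.filter fun j => X j ∈ I with hA
  have memA : ∀ j, j ∈ A ↔ X j ∈ I := fun j => by simp [hA]
  have gen : ∀ u ∈ G, monomial u (1 : K) ∈ I := fun u hu => hG ▸ Ideal.subset_span ⟨u, hu, rfl⟩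
  set k := k₀ + d.natAbs + 1 with hk
  obtain ⟨hv, ⟨b', deg, g, dd, hg, -, hsp, -, -, hle⟩, -⟩ := h k (by omega)
  have key : ∀ u ∈ G, ∃ j ∈ A, u j ≠ 0 := by
    intro u hu
    by_contra hn
    let T : ℕ → Set (Fin n →₀ ℕ) := fun k => {m | (∃ j ∈ A, m j ≠ 0) ∨ 2 * k ≤ m.degree}
    have up : ∀ k l, ∀ a ∈ T k, ∀ c ∈ T l, a + c ∈ T (k + l) := by
      rintro k l a (⟨j, hj, h⟩ | h) c hc
      · exact Or.inl ⟨j, hj, by simp [h]⟩
      · rcases hc with ⟨j, hj, h⟩ | h'
        · exact Or.inl ⟨j, hj, by simp [h]⟩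
        · right; rw [map_add]; omega
    have h1 : I ≤ M (T 1) := by
      rw [hG]
      refine Ideal.span_mono (Set.image_mono fun w hw => ?_)
      by_contra hc
      simp only [T, Set.mem_ofPred_eq, not_or, not_le] at hc
      rcases (show w.degree = 0 ∨ w.degree = 1 by omega) with e | e
      · rw [Finsupp.degree_eq_zero_iff] at e
        exact hI ((Ideal.eq_top_iff_one _).2 (by simpa [e] using gen w hw))
      · obtain ⟨j, rfl⟩ : ∃ j, w = Finsupp.single j 1 := by
          obtain ⟨j, hj⟩ := (Finsupp.sum_eq_one_iff w).1 e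
          exact ⟨j, hj⟩
        exact hc.1 ⟨j, (memA j).2 (gen _ hw), by simp⟩
    have h2 : I ^ k ≤ M (T k) := (Ideal.pow_right_mono h1 k).trans
      (M_pow T (Or.inr (by simp)) (fun k => up k 1) k)
    have h3 : I ^ k ≤ Ideal.span (X '' (A : Set (Fin n))) := by
      rw [← hsp, Ideal.span_le]
      rintro _ ⟨t, rfl⟩
      have m1 : g t ∈ M (T k) := h2 (hsp ▸ Ideal.subset_span ⟨t, rfl⟩)
      rw [mem_M fun a ha c => up k 0 a ha c (Or.inr (by simp))] at m1
      refine mem_ideal_span_X_image.2 fun m hm => ?_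
      rcases m1 m hm with h | h
      · exact h
      · have e1 := hg t m hm
        have e2 := hle 0 t
        omega
    have h4 := (prime_X (A : Set (Fin n))).mem_of_pow_mem k (h3 (Ideal.pow_mem_pow (gen u hu) k))
    exact hn (mem_ideal_span_X_image.1 h4 u (by simp [support_monomial]))
  have hIA : I = Ideal.span (X '' (A : Set (Fin n))) := by
    apply le_antisymm
    · rw [hG, Ideal.span_le]
      rintro _ ⟨u, hu, rfl⟩
      refine mem_ideal_span_X_image.2 fun m hm => ?_
      simp only [support_monomial, one_ne_zero, if_false, Finset.mem_singleton] at hm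
      exact hm ▸ key u hu
    · rw [Ideal.span_le]
      rintro _ ⟨j, hj, rfl⟩
      exact (memA j).1 hj
  rcases A.eq_empty_or_nonempty with e | ⟨j, hj⟩
  · have : I ^ k = ⊥ := by
      rw [hIA, e]; simp [hk]
    have h0 : (k : ℤ) + b ≤ 0 := hv.2 ⟨1, fun m hm => by
      rw [support_one, Finset.mem_singleton] at hm; simp [hm], by
        rw [this]
        convert Ideal.isPrime_bot (α := MvPolynomial (Fin n) K) using 1
        ext f; simp [Submodule.mem_colon_singleton]⟩
    omega
  · let T : ℕ → Set (Fin n →₀ ℕ) := fun k => {m | k ≤ ∑ i ∈ A, m i}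
    have up : ∀ k l, ∀ a ∈ T k, ∀ c ∈ T l, a + c ∈ T (k + l) := by
      intro k l a ha c hc
      simp only [T, Set.mem_ofPred_eq, Finsupp.add_apply, Finset.sum_add_distrib] at ha hc ⊢
      omega
    have h1 : I ≤ M (T 1) := by
      rw [hG]
      refine Ideal.span_mono (Set.image_mono fun w hw => ?_)
      obtain ⟨i, hi, h⟩ := key w hw
      exact le_trans (by omega) (Finset.single_le_sum (f := fun i => w i) (by simp) hi)
    have h2 : I ^ k ≤ M (T k) := (Ideal.pow_right_mono h1 k).trans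
      (M_pow T (by simp [T]) (fun k => up k 1) k)
    have col : (I ^ k).colon {monomial (Finsupp.single j (k - 1)) (1 : K)} = I := by
      ext f
      rw [Submodule.mem_colon_singleton, smul_eq_mul]
      constructor
      · intro hf
        have m1 := (mem_M fun a ha c => up k 0 a ha c (by simp [T])).1 (h2 hf)
        rw [hIA]
        refine mem_ideal_span_X_image.2 fun m hm => ?_
        have := m1 (m + Finsupp.single j (k - 1)) (by
          rw [mem_support_iff, coeff_mul_monomial, mul_one]; exact mem_support_iff.1 hm)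
        simp only [T, Set.mem_ofPred_eq, Finsupp.add_apply, Finset.sum_add_distrib,
          Finsupp.single_apply, Finset.sum_ite_eq, hj, if_true] at this
        by_contra hc
        push Not at hc
        rw [Finset.sum_eq_zero fun i hi => hc i hi] at this
        omega
      · intro hf
        rw [← X_pow_eq_monomial, show k = k - 1 + 1 by omega, pow_succ', Nat.add_sub_cancel]
        exact Ideal.mul_mem_mul hf (Ideal.pow_mem_pow ((memA j).1 hj) _)
    have h0 : (k : ℤ) + b ≤ ((k - 1 : ℕ) : ℤ) := hv.2 ⟨monomial (Finsupp.single j (k - 1)) 1, fun m hm => by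
      simp only [support_monomial, one_ne_zero, if_false, Finset.mem_singleton] at hm
      rw [hm, Finsupp.degree_single], by rw [col, hIA]; exact prime_X _⟩
    omega

end Pool.Agent.Results.MP_d985a5_al.NotAll
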